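import Pool.Agent.helper64.NQ.Spec
import Pool.Agent.helper65.DI.D1

/-! Row nq:EIV (MP_baa4d7). -/

set_option autoImplicit false

namespace Pool.Agent.NQ

open Pool.Agent.helper58.DC Pool.Agent.DI Pool.Agent.DR

section

variable {G E A : Type} [Group G] [Group E] [Group A] [Finite G] [Finite E]

omit [Finite E] in
theorem EIV_stab (hNM : NM_stmt) (X : Extension G E A) (C : Finset (Subgroup G)) (ψ : G → ℂ)
    (g : G) : X.stab (chainMap (MulAut.conj g) C) (funMap (MulAut.conj g) ψ) =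
      (X.stab C ψ).map (MulAut.conj (X.inc g)).toMonoidHom := by
  ext e
  constructor
  · intro he
    have h := D1_stab hNM X (chainMap (MulAut.conj g) C) (funMap (MulAut.conj g) ψ) g⁻¹ e he
    rw [D1_back hNM, D1_backF] at h
    refine ⟨_, h, ?_⟩
    show X.inc g * (X.inc g⁻¹ * e * (X.inc g⁻¹)⁻¹) * (X.inc g)⁻¹ = e
    rw [map_inv]
    group
  · rintro ⟨e', he', rfl⟩
    exact D1_stab hNM X C ψ g e' he'

theorem EIV_step (hNM : NM_stmt) (hIF : IF_stmt) (X : Extension G E A) (C : Finset (Subgroup G))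
    (ψ : G → ℂ) (g : G) (φ : E → ℂ) (c : ℂ) (hφ : φ ∈ IrrOn (X.stab C ψ))
    (h : ∀ x ∈ nrm C, φ (X.inc x) = c * ψ x) :
    funMap (MulAut.conj (X.inc g)) φ ∈
      IrrOn (X.stab (chainMap (MulAut.conj g) C) (funMap (MulAut.conj g) ψ)) ∧
    ∀ x ∈ nrm (chainMap (MulAut.conj g) C), funMap (MulAut.conj (X.inc g)) φ (X.inc x) =
      c * funMap (MulAut.conj g) ψ x := by
  constructor
  · rw [EIV_stab hNM]
    exact ((hIF E (X.stab C ψ)).2 φ hφ).2.2 _
  · intro x hx
    rw [(hNM G (MulAut.conj g) C).2.2.2.1] at hx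
    obtain ⟨y, hy, rfl⟩ := hx
    have h1 : funMap (MulAut.conj g) ψ ((MulAut.conj g).toMonoidHom y) = ψ y := by
      unfold funMap
      congr 1
      exact MulAut.inv_apply_self G (MulAut.conj g) y
    have h2 : funMap (MulAut.conj (X.inc g)) φ (X.inc ((MulAut.conj g).toMonoidHom y)) =
        φ (X.inc y) := by
      unfold funMap
      congr 1
      have h3 : X.inc ((MulAut.conj g).toMonoidHom y) = (MulAut.conj (X.inc g)) (X.inc y) := by
        show X.inc (g * y * g⁻¹) = X.inc g * X.inc y * (X.inc g)⁻¹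
        rw [map_mul, map_mul, map_inv]
      rw [h3]
      exact MulAut.inv_apply_self E (MulAut.conj (X.inc g)) (X.inc y)
    rw [h1, h2]
    exact h y hy

omit [Finite G] [Finite E] in
theorem EIV_back (X : Extension G E A) (φ : E → ℂ) (g : G) :
    funMap (MulAut.conj (X.inc g)) (funMap (MulAut.conj (X.inc g⁻¹)) φ) = φ := by
  funext x
  simp [funMap, mul_assoc]

end

theorem EIV (hNM : NM_stmt) (hIF : IF_stmt) : EIV_stmt := by
  intro G E A _ _ _ _ _ X C ψ g
  constructor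
  · rintro ⟨φ, hφ, h⟩
    obtain ⟨h1, h2⟩ := EIV_step hNM hIF X C ψ g φ 1 hφ (fun x hx => by rw [one_mul]; exact h x hx)
    exact ⟨_, h1, fun x hx => by rw [h2 x hx, one_mul]⟩
  · rintro ⟨φ, ⟨hφ, e, h⟩, huniq⟩
    obtain ⟨h1, h2⟩ := EIV_step hNM hIF X C ψ g φ e hφ h
    refine ⟨_, ⟨h1, e, h2⟩, ?_⟩
    rintro φ' ⟨hφ', e', h'⟩
    obtain ⟨h3, h4⟩ := EIV_step hNM hIF X _ _ g⁻¹ φ' e' hφ' h'
    rw [D1_back hNM, D1_backF] at h3
    rw [D1_back hNM, D1_backF] at h4
    have h5 := huniq _ ⟨h3, e', h4⟩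
    show φ' = funMap (MulAut.conj (X.inc g)) φ
    rw [← h5, EIV_back]

end Pool.Agent.NQ
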